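import Pool.Agent.Y501.SY.StmU
import Pool.Agent.Y604.SY.Pull

/-!
Project SYU: invariant one-forms and their exterior derivatives descend along a normal covering.
-/

set_option autoImplicit false

open Set Filter Topology MeasureTheory
open scoped Manifold ContDiff

noncomputable section

namespace Pool.Agent.Y945.SY

open Pool.Agent.Y501.SY Pool.Agent.Y604.SY

section gen

variable {d m k : ℕ} {X Y : Type} [TopologicalSpace X] [ChartedSpace (E d) X]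
  [TopologicalSpace Y] [ChartedSpace (E m) Y]

/-- the pull-back of a form of any degree -/
def pl (f : X → Y) (σ : Form m Y k) : Form d X k :=
  fun x => ((σ (f x)).compContinuousLinearMap (mfderiv (𝓡 d) (𝓡 m) f x))

/-- the pull-back of a form of any degree to the model space -/
def pbk (σ : Form m Y k) (F : E d → Y) (p : E d) : (E d) [⋀^Fin k]→L[ℝ] ℝ :=
  (σ (F p)).compContinuousLinearMap (mfderiv (𝓡 d) (𝓡 m) F p)

theorem pbk_congr (σ : Form m Y k) {F H : E d → Y} {p : E d} (h : F =ᶠ[𝓝 p] H) :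
    pbk σ F p = pbk σ H p := by
  have hp : F p = H p := h.eq_of_nhds
  have hd : (mfderiv (𝓡 d) (𝓡 m) F p : E d →L[ℝ] E m) = mfderiv (𝓡 d) (𝓡 m) H p :=
    h.mfderiv_eq
  ext v
  show (σ (F p) : (E m) [⋀^Fin k]→L[ℝ] ℝ)
      (fun i => (mfderiv (𝓡 d) (𝓡 m) F p : E d →L[ℝ] E m) (v i)) =
    (σ (H p) : (E m) [⋀^Fin k]→L[ℝ] ℝ)
      (fun i => (mfderiv (𝓡 d) (𝓡 m) H p : E d →L[ℝ] E m) (v i))
  rw [hd, hp]

/-- the chain rule -/
theorem pbk_comp (σ : Form m Y k) {n : ℕ} {Z : Type} [TopologicalSpace Z] [ChartedSpace (E n) Z]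
    {f : Z → Y} {φ : E d → Z} {p : E d} (hf : MDifferentiableAt (𝓡 n) (𝓡 m) f (φ p))
    (hφ : MDifferentiableAt (𝓡 d) (𝓡 n) φ p) :
    pbk σ (f ∘ φ) p = ((σ (f (φ p))).compContinuousLinearMap
      (mfderiv (𝓡 n) (𝓡 m) f (φ p))).compContinuousLinearMap (mfderiv (𝓡 d) (𝓡 n) φ p) := by
  unfold pbk
  rw [mfderiv_comp p hf hφ]
  rfl

end gen

section cov

variable {d : ℕ} {Z X : Type} [TopologicalSpace Z] [ChartedSpace (E d) Z]
  [TopologicalSpace X] [ChartedSpace (E d) X]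
  {Γ : Type} [Group Γ] [MulAction Γ Z] {pr : Z → X}

/-- invariant forms descend -/
theorem desc {k : ℕ} (hΓ : ∀ γ : Γ, ContMDiff (𝓡 d) (𝓡 d) ∞ (fun z : Z => γ • z))
    (hloc : IsLocalDiffeomorph (𝓡 d) (𝓡 d) ∞ pr) (hsurj : Function.Surjective pr)
    (hfib : ∀ z z' : Z, pr z = pr z' ↔ ∃ γ : Γ, γ • z = z')
    [IsManifold (𝓡 d) ∞ Z] [IsManifold (𝓡 d) ∞ X]
    (w : Form d Z k) (hinv : ∀ γ : Γ, pl (d := d) (fun z : Z => γ • z) w = w) :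
    ∃ σ : Form d X k, pl (d := d) pr σ = w := by
  have hn : (∞ : WithTop ℕ∞) ≠ 0 := by simp
  have hB : ∀ z : Z, ∃ B : E d ≃L[ℝ] E d,
      (B : E d →L[ℝ] E d) = mfderiv (𝓡 d) (𝓡 d) pr z := fun z =>
    ⟨(hloc z).mfderivToContinuousLinearEquiv hn, (hloc z).mfderivToContinuousLinearEquiv_coe hn⟩
  choose B hB using hB
  have hmp : ∀ z, MDifferentiableAt (𝓡 d) (𝓡 d) pr z := fun z => (hloc z).mdifferentiableAt hn
  obtain ⟨s, hs⟩ : ∃ s : X → Z, ∀ x, pr (s x) = x :=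
    ⟨Function.surjInv hsurj, Function.surjInv_eq hsurj⟩
  let σ : Form d X k := fun x =>
    (w (s x) : (E d) [⋀^Fin k]→L[ℝ] ℝ).compContinuousLinearMap
      ((B (s x)).symm : E d →L[ℝ] E d)
  have hprγ : ∀ (γ : Γ) (z : Z), pr (γ • z) = pr z := fun γ z =>
    ((hfib z (γ • z)).2 ⟨γ, rfl⟩).symm
  refine ⟨σ, funext ?_⟩
  intro z
  obtain ⟨γ, hγ⟩ := (hfib z (s (pr z))).1 (hs (pr z)).symm
  have h1 : pl (d := d) (fun z : Z => γ • z) w z = w z := congrFun (hinv γ) z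
  have hmd : MDifferentiableAt (𝓡 d) (𝓡 d) (fun z : Z => γ • z) z :=
    (hΓ γ z).mdifferentiableAt hn
  have h2 : ∀ v : E d, (mfderiv (𝓡 d) (𝓡 d) pr z : E d →L[ℝ] E d) v =
      (mfderiv (𝓡 d) (𝓡 d) pr (γ • z) : E d →L[ℝ] E d)
        ((mfderiv (𝓡 d) (𝓡 d) (fun z : Z => γ • z) z : E d →L[ℝ] E d) v) := by
    intro v
    have h3 : (mfderiv (𝓡 d) (𝓡 d) (pr ∘ (fun z : Z => γ • z)) z : E d →L[ℝ] E d) =
        (mfderiv (𝓡 d) (𝓡 d) pr (γ • z) : E d →L[ℝ] E d).comp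
          (mfderiv (𝓡 d) (𝓡 d) (fun z : Z => γ • z) z : E d →L[ℝ] E d) :=
      mfderiv_comp z (hmp _) hmd
    have h4 : pr ∘ (fun z : Z => γ • z) = pr := funext fun z => hprγ γ z
    rw [h4] at h3
    exact congrArg (fun T : E d →L[ℝ] E d => T v) h3
  have claim : ∀ (y : Z), γ • z = y → ∀ v : Fin k → E d,
      (w y : (E d) [⋀^Fin k]→L[ℝ] ℝ)
        (fun i => (B y).symm ((mfderiv (𝓡 d) (𝓡 d) pr z : E d →L[ℝ] E d) (v i))) =
      (w z : (E d) [⋀^Fin k]→L[ℝ] ℝ) v := by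
    rintro _ rfl v
    have h5 : (fun i => (B (γ • z)).symm
        ((mfderiv (𝓡 d) (𝓡 d) pr z : E d →L[ℝ] E d) (v i))) =
        fun i => (mfderiv (𝓡 d) (𝓡 d) (fun z : Z => γ • z) z : E d →L[ℝ] E d) (v i) := by
      funext i
      rw [ContinuousLinearEquiv.symm_apply_eq, h2 (v i), ← hB (γ • z)]
      rfl
    rw [h5]
    exact congrArg (fun T : (E d) [⋀^Fin k]→L[ℝ] ℝ => T v) h1
  ext v
  exact claim _ hγ v

/-- local sections -/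
theorem key (hloc : IsLocalDiffeomorph (𝓡 d) (𝓡 d) ∞ pr) (hsurj : Function.Surjective pr)
    [IsManifold (𝓡 d) ∞ Z] [IsManifold (𝓡 d) ∞ X] (U : Set (E d)) (φ : E d → X)
    (hU : IsOpen U) (hφ : ContMDiffOn (𝓡 d) (𝓡 d) ∞ φ U) (p₀ : E d) (hp₀ : p₀ ∈ U) :
    ∃ (U' : Set (E d)) (ψ : E d → Z), IsOpen U' ∧ p₀ ∈ U' ∧
      ContMDiffOn (𝓡 d) (𝓡 d) ∞ ψ U' ∧ ∀ (k : ℕ) (σ : Form d X k) (w : Form d Z k),
        pl (d := d) pr σ = w → ∀ p ∈ U', pb φ σ p = pb ψ w p := by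
  have hn : (∞ : WithTop ℕ∞) ≠ 0 := by simp
  have hmp : ∀ z, MDifferentiableAt (𝓡 d) (𝓡 d) pr z := fun z => (hloc z).mdifferentiableAt hn
  obtain ⟨z₀, hz₀⟩ := hsurj (φ p₀)
  obtain ⟨Φ, hz, hΦ⟩ := hloc z₀
  have hU' : IsOpen (U ∩ φ ⁻¹' Φ.target) :=
    hφ.continuousOn.isOpen_inter_preimage hU Φ.open_target
  have hψ : ContMDiffOn (𝓡 d) (𝓡 d) ∞ (Φ.symm ∘ φ) (U ∩ φ ⁻¹' Φ.target) :=
    Φ.contMDiffOn_invFun.comp (hφ.mono inter_subset_left) fun p hp => hp.2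
  refine ⟨U ∩ φ ⁻¹' Φ.target, Φ.symm ∘ φ, hU', ⟨hp₀, ?_⟩, hψ, ?_⟩
  · show φ p₀ ∈ Φ.target
    rw [← hz₀, hΦ hz]
    exact Φ.map_source hz
  · intro k σ w hσw p hp
    have hψp : MDifferentiableAt (𝓡 d) (𝓡 d) (Φ.symm ∘ φ) p :=
      ((hψ p hp).contMDiffAt (hU'.mem_nhds hp)).mdifferentiableAt hn
    have h1 : φ =ᶠ[𝓝 p] pr ∘ (Φ.symm ∘ φ) := by
      filter_upwards [hU'.mem_nhds hp] with r hr
      have h2 : Φ.symm (φ r) ∈ Φ.source := Φ.map_target hr.2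
      show φ r = pr (Φ.symm (φ r))
      rw [hΦ h2]
      exact (Φ.right_inv hr.2).symm
    have h2 : pb φ σ p = pbk σ (pr ∘ (Φ.symm ∘ φ)) p := pbk_congr σ h1
    have h3 : pl (d := d) pr σ ((Φ.symm ∘ φ) p) = w ((Φ.symm ∘ φ) p) := congrFun hσw _
    rw [h2, pbk_comp σ (hmp _) hψp]
    exact congrArg (fun T : (E d) [⋀^Fin k]→L[ℝ] ℝ => T.compContinuousLinearMap
      (mfderiv (𝓡 d) (𝓡 d) (Φ.symm ∘ φ) p : E d →L[ℝ] E d)) h3

end cov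

/-- Invariant one-forms and their exterior derivatives descend. -/
theorem t_DESC1 : Pool.Agent.Y501.SY.S_DESC1 := by
  intro d Z X _ _ _ _ _ _ Γ _ _ pr hΓ hloc hsurj hfib β η hβ hη hD hinv1 hinv2
  obtain ⟨α, hα⟩ := desc (k := 1) hΓ hloc hsurj hfib β hinv1
  obtain ⟨ρ, hρ⟩ := desc (k := 2) hΓ hloc hsurj hfib η hinv2
  refine ⟨α, ρ, ?_, ?_, ?_, hα, hρ⟩
  · intro U φ hU hφ p₀ hp₀
    obtain ⟨U', ψ, hU', hp, hψ, he⟩ := key hloc hsurj U φ hU hφ p₀ hp₀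
    have h1 := (hβ U' ψ hU' hψ).contDiffAt (hU'.mem_nhds hp)
    have h2 : pb φ α =ᶠ[𝓝 p₀] pb ψ β := by
      filter_upwards [hU'.mem_nhds hp] with p hp using he 1 α β hα p hp
    exact (h1.congr_of_eventuallyEq h2).contDiffWithinAt
  · intro U φ hU hφ p₀ hp₀
    obtain ⟨U', ψ, hU', hp, hψ, he⟩ := key hloc hsurj U φ hU hφ p₀ hp₀
    have h1 := (hη U' ψ hU' hψ).contDiffAt (hU'.mem_nhds hp)
    have h2 : pb φ ρ =ᶠ[𝓝 p₀] pb ψ η := by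
      filter_upwards [hU'.mem_nhds hp] with p hp using he 2 ρ η hρ p hp
    exact (h1.congr_of_eventuallyEq h2).contDiffWithinAt
  · intro U φ hU hφ p₀ hp₀
    obtain ⟨U', ψ, hU', hp, hψ, he⟩ := key hloc hsurj U φ hU hφ p₀ hp₀
    have h2 : pb φ α =ᶠ[𝓝 p₀] pb ψ β := by
      filter_upwards [hU'.mem_nhds hp] with p hp using he 1 α β hα p hp
    have h3 := hD U' ψ hU' hψ p₀ hp
    rw [h2.extDeriv_eq, h3]
    exact (he 2 ρ η hρ p₀ hp).symm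

end Pool.Agent.Y945.SY
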